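import Pool.Agent.Y137.GN.Defs
import Pool.Agent.Y137.SF.Main
import Pool.Agent.W495.FM.HomFive
import Pool.Agent.W495.FM.DimMain

/-!
# Schemes over finite fields generated by abelian varieties of dimension at most five, or with small
simple factors
-/

set_option autoImplicit false

namespace Pool.Agent.Y137.GN

open Pool.Agent.W495.TA Pool.Agent.W495.FM Pool.Agent.Y137.SF Pool.Agent.TH117 Module

variable {p : ℕ} [Fact p.Prime] {ν : PadicAlgCl p ≃+* ℂ} {Ω : Type} [Field Ω] [IsAlgClosed Ω]
  [CharZero Ω]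

theorem IsChowS.isChow {Y : RedAV p ν} {C : Cycles Ω Y} (h : IsChowS C) : IsChow C where
  toHasFrobenius := h.toHasFrobenius
  toHasDuality := h.toHasDuality
  toHasProducts := h.toHasProducts
  nilpotent := h.nilpotent
  algebraic j f hf hT := h.algebraicS j f (AlgS.of_alg (by simp) (by simp) hf) hT

/-- All Tate classes on `Y` over finite extensions belong to the system `AlgS`. -/
theorem algS_goodS {Y : RedAV p ν} (hY : IsGoodAVS Y) (s m : ℕ) (hs : 0 < s)
    (f : (TM Ω Y) [⋀^Fin (2 * m)]→ₗ[Ω] Ω) (hf : IsTateClass Ω Y s m f) :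
    AlgS Ω {4, 6} Y (Fin (2 * m)) f := by
  rcases hY with hY | ⟨Z, hZ, hY⟩
  · exact fiveS Ω Y hY s m hs f hf
  · exact elementaryS Z hZ.elementary Ω Y hY s m hs f hf

theorem tateHolds_goodS {Y : RedAV p ν} {C : Cycles Ω Y} (hY : IsGoodAVS Y) (hC : IsChowS C) :
    TateHolds C :=
  fun j f hf => hC.algebraicS j f (algS_goodS hY 1 j one_pos f hf) hf

variable {V : Type} {T : Homology Ω V}

theorem tb_goodS (hT : IsHomology T) {X : V} (hX : Generated T (IsGoodAbelianS p ν T) X) :
    TB T X := by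
  refine tb_generated hT (fun X hX => ?_) hX
  obtain ⟨Y, C, M, g, hY, hC, hM, hX⟩ := hX
  exact tb_abelian hT hC.isChow (tateHolds_goodS hY hC) hM hX

theorem isoAbove_goodS (hT : IsHomology T) (hW : HasWeights T) :
    IsoAbove T (IsGoodAbelianS p ν T) := fun _ _ _ _ h hX hZ i hi =>
  iso_opened hT hW h (onto_of_dim hT hZ hi) ((tb_goodS hT hX).iso hT i)

theorem onto_spread_goodS (hT : IsHomology T) (hW : HasWeights T) {X : V}
    (hX : Spread T (fun X => Generated T (IsGoodAbelianS p ν T) X ∨ ∀ i, IsOnto T X i) X) (i : ℤ) :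
    IsOnto T X i := by
  refine onto_spread hT hW (fun X h i => ?_) hX i
  rcases h with h | h
  · exact ((tb_goodS hT h).iso hT i).1
  · exact h i

end Pool.Agent.Y137.GN
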