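import Pool.Agent.W495.FM.HomDefs
import Pool.Agent.Y137.SF.Defs
import Pool.Agent.Y137.HS.Small

/-!
# Schemes over finite fields generated by abelian varieties of dimension at most five, or with small
simple factors: definitions
-/

set_option autoImplicit false

namespace Pool.Agent.Y137.GN

open Pool.Agent.W495.TA Pool.Agent.W495.FM Pool.Agent.Y137.SF Pool.Agent.Y137.HS Pool.Agent.TH117
  Module

variable {p : ℕ} [Fact p.Prime] {ν : PadicAlgCl p ≃+* ℂ}

/-- The abelian variety `Y` over a finite field is of one of the following kinds.

* Its dimension is at most five.
* It is isogenous, over an algebraic closure, to a product of a supersingular abelian variety and of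
  powers of the factors of an abelian variety `Z`, the factors of `Z` have dimension at most three, and
  any two of them of dimension three which are not supersingular and whose CM fields have the same
  Galois closure over `ℚ` are isogenous, unless these fields are Galois over `ℚ`. So `Y` may be any
  product of elliptic curves and abelian surfaces. -/
def IsGoodAVS (Y : RedAV p ν) : Prop :=
  finrank ℚ Y.X.H1 ≤ 10 ∨ ∃ Z : RedAV p ν, SmallFactors Z ∧ BL.IsPowersTimesSupersingular Z Y

variable {Ω : Type} [Field Ω] [CharZero Ω]

/-- The properties of the theory of algebraic cycles modulo rational equivalence on the abelian variety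
`Y` (for `IsChow` see `Pool.Agent.W495.FM.IsChow`; only the last property is stronger). -/
structure IsChowS {Y : RedAV p ν} (C : Cycles Ω Y) : Prop extends HasFrobenius C, HasDuality C,
    HasProducts C where
  /-- homologically trivial correspondences are nilpotent (Kimura; the Chow motives of abelian
  varieties are finite-dimensional) -/
  nilpotent : ∀ c, (∀ n f, C.actH n c f = 0) → IsNilpotent c
  /-- the Tate classes over the ground field that are generated by Tate classes of degree two, by
  reductions of split Weil classes of degree four and six, and by reductions of Hodge classes of
  degree four on products of elliptic curves and abelian surfaces are linear combinations of classes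
  of algebraic cycles (theorems of Tate, Markman and Ramón Marí) -/
  algebraicS : ∀ j f, AlgS Ω {4, 6} Y (Fin (2 * j)) f → IsTate j f →
    f ∈ Submodule.span Ω (Set.range (C.cl j))

/-- The groups of motivic and of `ℓ`-adic homology of `X` are those of an abelian variety `Y` of
dimension at most five, or with small factors (`IsGoodAVS`). -/
def IsGoodAbelianS {Ω V : Type} [Field Ω] [CharZero Ω] (p : ℕ) [Fact p.Prime]
    (ν : PadicAlgCl p ≃+* ℂ) (T : Homology Ω V) (X : V) : Prop :=
  ∃ (Y : RedAV p ν) (C : Cycles Ω Y) (M : Motivic C) (g : ℕ), IsGoodAVS Y ∧ IsChowS C ∧
    IsMotivic M ∧ IsAbelian T X M g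

end Pool.Agent.Y137.GN
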