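import Pool.Agent.Y137.GN.Main
import Pool.Agent.W495.FM.Higher
import Pool.Agent.TH117.GN.Wt
import Pool.Agent.TH117.GN.WeilEtaleDefs

/-!
# Consequences: motivic cohomology, Weil-étale cohomology, perfect pairings
-/

set_option autoImplicit false

namespace Pool.Agent.Y137.GN

open Pool.Agent.W495.TA Pool.Agent.W495.FM Pool.Agent.Y137.SF Pool.Agent.TH117 Module

variable {p : ℕ} [Fact p.Prime] {ν : PadicAlgCl p ≃+* ℂ} {Ω : Type} [Field Ω] [IsAlgClosed Ω]
  [CharZero Ω]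

/-- The motivic cohomology groups of good abelian varieties vanish outside of the degrees `2 n`. -/
theorem motivic_goodS {Y : RedAV p ν} {C : Cycles Ω Y} (hY : IsGoodAVS Y) (hC : IsChowS C)
    {M : Motivic C} (hM : IsMotivic M) (i n : ℤ) (hi : i ≠ 2 * n) (x : M.H i n) : x = 0 :=
  motivic_trivial hC.isChow (tateHolds_goodS hY hC) hM i n hi x

theorem summand_goodS {I : Type} {Y : I → RedAV p ν} {C : ∀ l, Cycles Ω (Y l)}
    (hY : ∀ l, IsGoodAVS (Y l)) (hC : ∀ l, IsChowS (C l)) {M : ∀ l, Motivic (C l)}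
    (hM : ∀ l, IsMotivic (M l)) (r : I → ℤ) (X : ℤ → ℤ → Type) [∀ i n, AddCommGroup (X i n)]
    (hX : IsSummand M r X) (i n : ℤ) (hi : i ≠ 2 * n) (x : X i n) : ∃ N : ℕ, 0 < N ∧ N • x = 0 :=
  summand_trivial (fun l => (hC l).isChow) (fun l => tateHolds_goodS (hY l) (hC l)) hM r X hX i n
    hi x

end Pool.Agent.Y137.GN
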